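import Pool.Agent.V1129.HTM

set_option autoImplicit false

/-!
MP_fd686d_al, Q1: a locally compact hereditarily minimal group with non-trivial centre which is not
hereditarily totally minimal.
-/

namespace Pool.Agent.V1129.HTM

/-- the group topology `τ` on `G` is minimal: it has no strictly coarser Hausdorff group topology -/
def MinimalTop (G : Type) [Group G] (τ : TopologicalSpace G) : Prop :=
  ∀ σ : TopologicalSpace G, @IsTopologicalGroup G σ _ → @T2Space G σ → τ ≤ σ → σ = τ

/-- `G` is totally minimal: for every closed normal subgroup `N` the quotient group `G ⧸ N`, with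
the quotient topology, is minimal -/
def TotallyMinimal (G : Type) [Group G] [TopologicalSpace G] : Prop :=
  ∀ (N : Subgroup G) [N.Normal], IsClosed (N : Set G) →
    MinimalTop (G ⧸ N) (QuotientGroup.instTopologicalSpace N)

/-- every subgroup, with the subspace topology, is minimal -/
def HereditarilyMinimal (G : Type) [Group G] [TopologicalSpace G] : Prop :=
  ∀ H : Subgroup G, MinimalTop H instTopologicalSpaceSubtype

/-- every subgroup, with the subspace topology, is totally minimal -/
def HereditarilyTotallyMinimal (G : Type) [Group G] [TopologicalSpace G] : Prop :=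
  ∀ H : Subgroup G, TotallyMinimal H

end Pool.Agent.V1129.HTM

namespace Pool.Agent.Results.MP_fd686d_al.NotTotallyMinimal

open Topology Filter Pool.Agent.TH54 Pool.Agent.TH54.BU Pool.Agent.V1129.HTM

/-- There is a locally compact Hausdorff hereditarily minimal group with non-trivial centre which
is not hereditarily totally minimal. -/
theorem result : ∃ (G : Type) (_ : Group G) (_ : TopologicalSpace G),
    IsTopologicalGroup G ∧ T2Space G ∧ LocallyCompactSpace G ∧ Subgroup.center G ≠ ⊥ ∧
      Pool.Agent.V1129.HTM.HereditarilyMinimal G ∧ ¬ HereditarilyTotallyMinimal G := by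
  obtain ⟨p0, h⟩ := Pool.Agent.TH54.BU.burnside
  obtain ⟨p, hle, hp⟩ := Nat.exists_infinite_primes p0
  have : Fact p.Prime := ⟨hp⟩
  have hB : Burn p := h p hp hle
  obtain ⟨M, hG, hTop, hTG, hT2, htf, hopen, hZ, ⟨e⟩, -⟩ :=
    Pool.Agent.Y321.HM.exists_ext_gen hB ℕ
  -- the topology on the free Burnside group
  obtain ⟨σ, hσ1, hσ2, hσ3⟩ := burnside_topologizable p hp.one_lt
  have hinf : Infinite (M ⧸ Subgroup.center M) := by
    by_contra hfin
    rw [not_infinite_iff_finite] at hfin
    have hfB : Finite (BB p) := Finite.of_equiv _ e.toEquiv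
    have : @DiscreteTopology (BB p) σ := by
      let _ := σ
      exact Finite.instDiscreteTopology
    exact hσ3 this.eq_bot
  have hexp : ∃ n : ℕ, 0 < n ∧ ∀ x : M ⧸ Subgroup.center M, x ^ n = 1 := by
    refine ⟨p, hp.pos, fun x => ?_⟩
    apply e.injective
    rw [map_pow, map_one]
    obtain ⟨g, hg⟩ := QuotientGroup.mk_surjective (e x)
    rw [← hg, ← QuotientGroup.mk_pow, QuotientGroup.eq_one_iff]
    exact Subgroup.subset_normalClosure ⟨g, rfl⟩
  obtain ⟨h1, h2, h3, h4, h5, -⟩ := bounded_exponent_extensions p M htf hopen hZ hexp hinf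
  refine ⟨M, hG, hTop, hTG, hT2, h2, h5, fun H σ' a b c => h1 H σ' a b c, ?_⟩
  intro htot
  let φ : (⊤ : Subgroup M) →* BB p :=
    e.toMonoidHom.comp ((QuotientGroup.mk' (Subgroup.center M)).comp (⊤ : Subgroup M).subtype)
  have hφ : Function.Surjective φ := by
    intro b
    obtain ⟨m, hm⟩ := QuotientGroup.mk_surjective (e.symm b)
    refine ⟨⟨m, trivial⟩, ?_⟩
    show e (m : M ⧸ Subgroup.center M) = b
    rw [hm, MulEquiv.apply_symm_apply]
  have hker : (φ.ker : Set (⊤ : Subgroup M)) = Subtype.val ⁻¹' (Subgroup.center M : Set M) := by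
    ext x
    show φ x = 1 ↔ x.1 ∈ Subgroup.center M
    show e ((x.1 : M) : M ⧸ Subgroup.center M) = 1 ↔ _
    rw [map_eq_one_iff e e.injective, QuotientGroup.eq_one_iff]
  have hkopen : IsOpen (φ.ker : Set (⊤ : Subgroup M)) := by
    rw [hker]
    exact hopen.preimage continuous_subtype_val
  have hkclosed : IsClosed (φ.ker : Set (⊤ : Subgroup M)) := Subgroup.isClosed_of_isOpen _ hkopen
  have hmin := htot ⊤ φ.ker hkclosed
  let ψ : (⊤ : Subgroup M) ⧸ φ.ker ≃* BB p := QuotientGroup.quotientKerEquivOfSurjective φ hφ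
  have hdisc : DiscreteTopology ((⊤ : Subgroup M) ⧸ φ.ker) :=
    QuotientGroup.discreteTopology hkopen
  have hbot : (QuotientGroup.instTopologicalSpace φ.ker :
      TopologicalSpace ((⊤ : Subgroup M) ⧸ φ.ker)) = ⊥ := hdisc.eq_bot
  have hσ' := hmin (TopologicalSpace.induced ψ σ)
    (by
      let _ := σ
      have := hσ1
      exact topologicalGroup_induced ψ)
    (@T2Space.of_injective_continuous _ _ (TopologicalSpace.induced ψ σ) σ hσ2 ψ ψ.injective
      continuous_induced_dom)
    (by rw [hbot]; exact bot_le)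
  rw [hbot] at hσ'
  apply hσ3
  have h6 : TopologicalSpace.induced ψ.symm (TopologicalSpace.induced ψ σ) = σ := by
    rw [induced_compose]
    have : (ψ ∘ ψ.symm : BB p → BB p) = id := by
      ext b
      exact ψ.apply_symm_apply b
    rw [this, induced_id]
  rw [← h6, hσ']
  have h7 := Equiv.induced_symm ψ.toEquiv
  exact (congrFun h7 ⊥).trans coinduced_bot

end Pool.Agent.Results.MP_fd686d_al.NotTotallyMinimal
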